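import Mathlib

/-!
Valuations, the `Q`-part of an integer, and the residue type of an integer at a prime.
-/

namespace Pool.Agent.MP68293e

/-- the exponent of `q` in the integer `x` -/
def v (q : ℕ) (x : ℤ) : ℕ := x.natAbs.factorization q

theorem pow_dvd_iff {q : ℕ} (hq : q.Prime) {x : ℤ} (hx : x ≠ 0) (e : ℕ) :
    (q : ℤ) ^ e ∣ x ↔ e ≤ v q x := by
  have h1 : ((q : ℤ) ^ e) = ((q ^ e : ℕ) : ℤ) := by push_cast; rfl
  rw [h1, Int.natCast_dvd, v]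
  exact hq.pow_dvd_iff_le_factorization (Int.natAbs_ne_zero.mpr hx)

theorem v_mul (q : ℕ) {x y : ℤ} (hx : x ≠ 0) (hy : y ≠ 0) : v q (x * y) = v q x + v q y := by
  unfold v
  rw [Int.natAbs_mul, Nat.factorization_mul (Int.natAbs_ne_zero.mpr hx)
    (Int.natAbs_ne_zero.mpr hy)]
  rfl

theorem v_neg (q : ℕ) (x : ℤ) : v q (-x) = v q x := by
  unfold v; rw [Int.natAbs_neg]

theorem v_add_of_dvd {q : ℕ} (hq : q.Prime) {z w : ℤ} (hz : z ≠ 0)
    (hw : (q : ℤ) ^ (v q z + 1) ∣ w) : z + w ≠ 0 ∧ v q (z + w) = v q z := by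
  have hnz : z + w ≠ 0 := by
    intro h
    have h1 : z = -w := by linarith
    have h2 : (q : ℤ) ^ (v q z + 1) ∣ z := by
      have h3 : (q : ℤ) ^ (v q z + 1) ∣ -w := (dvd_neg).mpr hw
      rwa [← h1] at h3
    rw [pow_dvd_iff hq hz] at h2
    omega
  refine ⟨hnz, ?_⟩
  apply le_antisymm
  · by_contra hlt
    push Not at hlt
    have h1 : (q : ℤ) ^ (v q z + 1) ∣ z + w := (pow_dvd_iff hq hnz _).mpr hlt
    have h2 : (q : ℤ) ^ (v q z + 1) ∣ z := (Int.dvd_add_left hw).mp h1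
    rw [pow_dvd_iff hq hz] at h2
    omega
  · rw [← pow_dvd_iff hq hnz]
    have h1 : (q : ℤ) ^ (v q z) ∣ z := (pow_dvd_iff hq hz _).mpr le_rfl
    have h2 : (q : ℤ) ^ (v q z) ∣ w := dvd_trans (pow_dvd_pow _ (Nat.le_succ _)) hw
    exact dvd_add h1 h2

theorem pow_v_le {q : ℕ} {x : ℤ} (hx : x ≠ 0) : q ^ v q x ≤ x.natAbs := by
  unfold v
  exact Nat.ordProj_le q (Int.natAbs_ne_zero.mpr hx)

/-- the `Q`-part of an integer -/
def qpart (Q : Finset ℕ) (x : ℤ) : ℕ := ∏ q ∈ Q, q ^ v q x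

theorem qpart_dvd {Q : Finset ℕ} (hQ : ∀ q ∈ Q, q.Prime) (x : ℤ) :
    qpart Q x ∣ x.natAbs := by
  unfold qpart
  apply Finset.prod_dvd_of_isRelPrime
  · intro a ha b hb hab
    simp only [Function.onFun]
    rw [← Nat.coprime_iff_isRelPrime]
    exact Nat.Coprime.pow _ _ ((Nat.coprime_primes (hQ a ha) (hQ b hb)).mpr hab)
  · intro q _
    exact Nat.ordProj_dvd _ _

theorem qpart_le {Q : Finset ℕ} (hQ : ∀ q ∈ Q, q.Prime) {x : ℤ} (hx : x ≠ 0) :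
    qpart Q x ≤ x.natAbs :=
  Nat.le_of_dvd (Int.natAbs_pos.mpr hx) (qpart_dvd hQ x)

theorem qpart_mul (Q : Finset ℕ) {x y : ℤ} (hx : x ≠ 0) (hy : y ≠ 0) :
    qpart Q (x * y) = qpart Q x * qpart Q y := by
  unfold qpart
  rw [← Finset.prod_mul_distrib]
  apply Finset.prod_congr rfl
  intro q _
  rw [v_mul q hx hy, pow_add]

theorem qpart_smooth {Q : Finset ℕ} {b : ℤ} (hb : b ≠ 0) (h : b.natAbs.primeFactors ⊆ Q) :
    qpart Q b = b.natAbs := by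
  unfold qpart v
  conv_rhs => rw [← Nat.prod_factorization_pow_eq_self (Int.natAbs_ne_zero.mpr hb)]
  rw [Finsupp.prod_of_support_subset _ (s := Q)]
  · simpa using h
  · intro i _; simp

theorem pow_v_le_qpart {Q : Finset ℕ} (hQ : ∀ q ∈ Q, q.Prime) {q : ℕ} (hq : q ∈ Q) (x : ℤ) :
    q ^ v q x ≤ qpart Q x := by
  unfold qpart
  apply Nat.le_of_dvd
  · apply Finset.prod_pos
    intro r hr
    exact pow_pos (hQ r hr).pos _
  · exact Finset.dvd_prod_of_mem (fun q => q ^ v q x) hq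

/-- the residue mod `p` of the part of `x` prime to `p` -/
def t (p : ℕ) (x : ℤ) : ZMod p := ((x / (p : ℤ) ^ v p x : ℤ) : ZMod p)

theorem eq_mul_unit {p : ℕ} (hp : p.Prime) {x : ℤ} (hx : x ≠ 0) :
    x = (p : ℤ) ^ v p x * (x / (p : ℤ) ^ v p x) := by
  rw [Int.mul_ediv_cancel' ((pow_dvd_iff hp hx _).mpr le_rfl)]

theorem unit_eq {p : ℕ} (hp : p.Prime) (e : ℕ) (u : ℤ) (hu : ¬ (p : ℤ) ∣ u) :
    v p ((p : ℤ) ^ e * u) = e ∧ t p ((p : ℤ) ^ e * u) = (u : ZMod p) := by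
  have hp0 : (p : ℤ) ≠ 0 := by exact_mod_cast hp.ne_zero
  have hu0 : u ≠ 0 := by rintro rfl; exact hu (dvd_zero _)
  have hne : (p : ℤ) ^ e * u ≠ 0 := mul_ne_zero (pow_ne_zero _ hp0) hu0
  have hv : v p ((p : ℤ) ^ e * u) = e := by
    apply le_antisymm
    · by_contra hlt
      push Not at hlt
      have h1 : (p : ℤ) ^ (e + 1) ∣ (p : ℤ) ^ e * u := (pow_dvd_iff hp hne _).mpr hlt
      rw [pow_succ] at h1
      exact hu ((mul_dvd_mul_iff_left (pow_ne_zero _ hp0)).mp h1)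
    · rw [← pow_dvd_iff hp hne]; exact dvd_mul_right _ _
  refine ⟨hv, ?_⟩
  unfold t
  rw [hv, Int.mul_ediv_cancel_left _ (pow_ne_zero _ hp0)]

theorem unit_not_dvd {p : ℕ} (hp : p.Prime) {x : ℤ} (hx : x ≠ 0) :
    ¬ (p : ℤ) ∣ x / (p : ℤ) ^ v p x := by
  intro h
  have h1 := eq_mul_unit hp hx
  have h2 : (p : ℤ) ^ (v p x + 1) ∣ x := by
    conv_rhs => rw [h1]
    rw [pow_succ]
    exact mul_dvd_mul_left _ h
  rw [pow_dvd_iff hp hx] at h2
  omega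

theorem t_ne_zero {p : ℕ} (hp : p.Prime) {x : ℤ} (hx : x ≠ 0) : t p x ≠ 0 := by
  unfold t
  rw [Ne, ZMod.intCast_zmod_eq_zero_iff_dvd]
  exact unit_not_dvd hp hx

theorem t_mul {p : ℕ} (hp : p.Prime) {x y : ℤ} (hx : x ≠ 0) (hy : y ≠ 0) :
    t p (x * y) = t p x * t p y := by
  have h1 := eq_mul_unit hp hx
  have h2 := eq_mul_unit hp hy
  have h3 : x * y = (p : ℤ) ^ (v p x + v p y) *
      ((x / (p : ℤ) ^ v p x) * (y / (p : ℤ) ^ v p y)) := by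
    conv_lhs => rw [h1, h2]
    ring
  have h4 : ¬ (p : ℤ) ∣ ((x / (p : ℤ) ^ v p x) * (y / (p : ℤ) ^ v p y)) := by
    intro h
    rcases (Nat.prime_iff_prime_int.mp hp).dvd_mul.mp h with h | h
    · exact unit_not_dvd hp hx h
    · exact unit_not_dvd hp hy h
  have h5 := (unit_eq hp (v p x + v p y) _ h4).2
  rw [← h3] at h5
  rw [h5]
  unfold t
  push_cast
  rfl

theorem t_of_not_dvd {p : ℕ} (hp : p.Prime) {x : ℤ} (hx : ¬ (p : ℤ) ∣ x) :
    t p x = (x : ZMod p) := by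
  have := (unit_eq hp 0 x hx).2
  simpa using this

theorem t_add {p : ℕ} (hp : p.Prime) {z w : ℤ} (hz : z ≠ 0)
    (hw : (p : ℤ) ^ (v p z + 1) ∣ w) : t p (z + w) = t p z := by
  obtain ⟨c, hc⟩ := hw
  have h1 := eq_mul_unit hp hz
  have h2 : z + w = (p : ℤ) ^ v p z * (z / (p : ℤ) ^ v p z + p * c) := by
    rw [mul_add, ← h1, hc]; ring
  have h3 : ¬ (p : ℤ) ∣ (z / (p : ℤ) ^ v p z + p * c) := by
    intro h
    exact unit_not_dvd hp hz ((Int.dvd_add_left (dvd_mul_right _ _)).mp h)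
  have h4 := (unit_eq hp (v p z) _ h3).2
  rw [← h2] at h4
  rw [h4]
  unfold t
  push_cast
  simp

end Pool.Agent.MP68293e
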