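import Mathlib
import Pool.Agent.MP68293e.Basic

/-!
The greedy block decomposition of an integer with respect to a finite set `Q` of primes:
it is equivariant under multiplication by integers all of whose prime factors lie in `Q`,
and compatible with adding a number that is highly divisible by every prime of `Q`.
-/

namespace Pool.Agent.MP68293e

variable {Q : Finset ℕ} {p : ℕ}

/-- `l` is a cut of `x`: the difference `x - l` is nonzero, more divisible than `x` by every
prime of `Q`, and its `Q`-part is at least `3 |l|`. -/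
def IsCut (Q : Finset ℕ) (x l : ℤ) : Prop :=
  x - l ≠ 0 ∧ (∀ q ∈ Q, v q x < v q (x - l)) ∧ 3 * l.natAbs ≤ qpart Q (x - l)

/-- a cut of least absolute value -/
def IsMinCut (Q : Finset ℕ) (x l : ℤ) : Prop :=
  IsCut Q x l ∧ ∀ l', IsCut Q x l' → l.natAbs ≤ l'.natAbs

theorem exists_minCut {x : ℤ} (h : ∃ l, IsCut Q x l) : ∃ l, IsMinCut Q x l := by
  classical
  have h1 : ∃ n : ℕ, ∃ l, IsCut Q x l ∧ l.natAbs = n := by
    obtain ⟨l, hl⟩ := h; exact ⟨_, l, hl, rfl⟩
  obtain ⟨l, hl, hn⟩ := Nat.find_spec h1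
  refine ⟨l, hl, ?_⟩
  intro l' hl'
  rw [hn]
  exact Nat.find_min' h1 ⟨l', hl', rfl⟩

theorem minCut_unique (hQ : ∀ q ∈ Q, q.Prime) (hp : p ∈ Q) (hp2 : p ≠ 2) {x : ℤ} (hx : x ≠ 0)
    {l l' : ℤ} (h : IsMinCut Q x l) (h' : IsMinCut Q x l') : l = l' := by
  have h1 : l.natAbs = l'.natAbs := le_antisymm (h.2 _ h'.1) (h'.2 _ h.1)
  rw [Int.natAbs_eq_natAbs_iff] at h1
  rcases h1 with h1 | h1
  · exact h1
  exfalso
  have hpp := hQ p hp
  have a1 : (p : ℤ) ^ (v p x + 1) ∣ x - l := (pow_dvd_iff hpp h.1.1 _).mpr (h.1.2.1 p hp)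
  have a2 : (p : ℤ) ^ (v p x + 1) ∣ x - l' := (pow_dvd_iff hpp h'.1.1 _).mpr (h'.1.2.1 p hp)
  have a3 : (p : ℤ) ^ (v p x + 1) ∣ 2 * x := by
    have := dvd_add a1 a2
    rw [h1] at this
    have e : x - -l' + (x - l') = 2 * x := by ring
    rwa [e] at this
  have a4 : IsCoprime ((p : ℤ) ^ (v p x + 1)) 2 := by
    apply IsCoprime.pow_left
    have := (Nat.coprime_primes hpp Nat.prime_two).mpr hp2
    exact_mod_cast (Nat.isCoprime_iff_coprime (m := p) (n := 2)).mpr this
  have a5 := a4.dvd_of_dvd_mul_left a3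
  rw [pow_dvd_iff hpp hx] at a5
  omega

theorem cut_size (hQ : ∀ q ∈ Q, q.Prime) {x l : ℤ} (h : IsCut Q x l) :
    2 * l.natAbs ≤ x.natAbs := by
  have h1 := h.2.2
  have h2 := qpart_le hQ h.1
  have h3 : (x - l).natAbs ≤ x.natAbs + l.natAbs := by omega
  omega

/-- the word of types of `x` -/
inductive IsW (Q : Finset ℕ) (p : ℕ) : ℤ → List (ZMod p) → Prop
  | nil (x : ℤ) : (¬ ∃ l, IsCut Q x l) → IsW Q p x [t p x]
  | cons (x l : ℤ) (w : List (ZMod p)) : IsMinCut Q x l → IsW Q p (x - l) w →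
      IsW Q p x (t p x :: w)

theorem IsW.exists_head {x : ℤ} {w : List (ZMod p)} (h : IsW Q p x w) :
    ∃ w', w = t p x :: w' := by
  cases h with
  | nil _ _ => exact ⟨[], rfl⟩
  | cons _ l w _ _ => exact ⟨w, rfl⟩

theorem exists_W (hQ : ∀ q ∈ Q, q.Prime) (hp : p ∈ Q) (hp3 : 3 ≤ p) :
    ∀ n : ℕ, ∀ x : ℤ, x ≠ 0 → x.natAbs / p ^ v p x ≤ n → ∃ w, IsW Q p x w := by
  intro n
  induction n using Nat.strong_induction_on with
  | _ n ih =>
    intro x hx hn
    by_cases hc : ∃ l, IsCut Q x l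
    · obtain ⟨l, hl⟩ := exists_minCut hc
      have hpp := hQ p hp
      have hlt : (x - l).natAbs / p ^ v p (x - l) < x.natAbs / p ^ v p x := by
        have b1 : p ^ (v p x + 1) ≤ p ^ v p (x - l) :=
          Nat.pow_le_pow_right hpp.pos (hl.1.2.1 p hp)
        obtain ⟨c, hc⟩ : p ^ v p (x - l) ∣ (x - l).natAbs := Nat.ordProj_dvd _ _
        obtain ⟨d, hd⟩ : p ^ v p x ∣ x.natAbs := Nat.ordProj_dvd _ _
        rw [hc, hd, Nat.mul_div_cancel_left _ (pow_pos hpp.pos _),
          Nat.mul_div_cancel_left _ (pow_pos hpp.pos _)]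
        have b2 := cut_size hQ hl.1
        have b3 : 2 * (x - l).natAbs ≤ 3 * x.natAbs := by omega
        have b4 : 0 < x.natAbs := Int.natAbs_pos.mpr hx
        have b5 : 0 < d := by
          rcases Nat.eq_zero_or_pos d with h | h
          · rw [h] at hd; omega
          · exact h
        have b6 : 0 < p ^ v p x := pow_pos hpp.pos _
        have b7 : 3 * p ^ v p x ≤ p ^ v p (x - l) := by
          rw [pow_succ] at b1
          nlinarith
        by_contra hcd
        push Not at hcd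
        have b8 : 3 * p ^ v p x * d ≤ p ^ v p (x - l) * c := Nat.mul_le_mul b7 hcd
        rw [← hc] at b8
        have b9 : 3 * (p ^ v p x * d) = 3 * x.natAbs := by rw [← hd]
        have b10 : 3 * p ^ v p x * d = 3 * (p ^ v p x * d) := by ring
        omega
      obtain ⟨w, hw⟩ := ih ((x - l).natAbs / p ^ v p (x - l)) (by omega) (x - l) hl.1.1 le_rfl
      exact ⟨_, IsW.cons x l w hl hw⟩
    · exact ⟨_, IsW.nil x hc⟩

theorem IsW.unique (hQ : ∀ q ∈ Q, q.Prime) (hp : p ∈ Q) (hp2 : p ≠ 2) {x : ℤ}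
    {w : List (ZMod p)} (h : IsW Q p x w) (hx : x ≠ 0) :
    ∀ w', IsW Q p x w' → w = w' := by
  induction h with
  | nil x hc =>
    intro w' h'
    cases h' with
    | nil _ _ => rfl
    | cons _ l w hl _ => exact absurd ⟨l, hl.1⟩ hc
  | cons x l w hl hw ih =>
    intro w' h'
    cases h' with
    | nil _ hc => exact absurd ⟨l, hl.1⟩ hc
    | cons _ l' w' hl' hw' =>
      have := minCut_unique hQ hp hp2 hx hl hl'
      subst this
      rw [ih hl.1.1 w' hw']

/-- scaling -/
theorem isCut_mul {b x l : ℤ} (hb : b ≠ 0)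
    (hbQ : b.natAbs.primeFactors ⊆ Q) (hx : x ≠ 0) :
    IsCut Q (b * x) (b * l) ↔ IsCut Q x l := by
  unfold IsCut
  have e : b * x - b * l = b * (x - l) := by ring
  rw [e]
  constructor
  · rintro ⟨h1, h2, h3⟩
    have h4 : x - l ≠ 0 := right_ne_zero_of_mul h1
    refine ⟨h4, ?_, ?_⟩
    · intro q hq
      have := h2 q hq
      rw [v_mul q hb hx, v_mul q hb h4] at this
      omega
    · rw [qpart_mul Q hb h4, qpart_smooth hb hbQ, Int.natAbs_mul] at h3
      have : 0 < b.natAbs := Int.natAbs_pos.mpr hb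
      have h5 : b.natAbs * (3 * l.natAbs) ≤ b.natAbs * qpart Q (x - l) := by linarith
      exact Nat.le_of_mul_le_mul_left h5 this
  · rintro ⟨h1, h2, h3⟩
    refine ⟨mul_ne_zero hb h1, ?_, ?_⟩
    · intro q hq
      have := h2 q hq
      rw [v_mul q hb hx, v_mul q hb h1]
      omega
    · rw [qpart_mul Q hb h1, qpart_smooth hb hbQ, Int.natAbs_mul]
      have h5 : b.natAbs * (3 * l.natAbs) ≤ b.natAbs * qpart Q (x - l) :=
        Nat.mul_le_mul_left _ h3
      linarith

theorem cut_of_mul {b x l : ℤ} (hb : b ≠ 0)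
    (hbQ : b.natAbs.primeFactors ⊆ Q) (hx : x ≠ 0) (h : IsCut Q (b * x) l) :
    ∃ l', l = b * l' := by
  have hbx : b * x ≠ 0 := mul_ne_zero hb hx
  -- b divides l because every prime power dividing b divides both b x and b x - l
  have key : b ∣ b * x - l := by
    rw [← Int.natAbs_dvd_natAbs]
    rw [← Nat.factorization_le_iff_dvd (Int.natAbs_ne_zero.mpr hb)
      (Int.natAbs_ne_zero.mpr h.1)]
    intro q
    by_cases hq : q ∈ Q
    · have h1 := h.2.1 q hq
      rw [v_mul q hb hx] at h1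
      unfold v at h1
      omega
    · have : q ∉ b.natAbs.primeFactors := fun h => hq (hbQ h)
      rw [← Nat.support_factorization, Finsupp.notMem_support_iff] at this
      rw [this]; exact Nat.zero_le _
  have : b ∣ l := by
    have h2 : l = b * x - (b * x - l) := by ring
    rw [h2]; exact dvd_sub (dvd_mul_right _ _) key
  exact this

theorem IsW.mul (hQ : ∀ q ∈ Q, q.Prime) (hp : p ∈ Q) {b : ℤ} (hb : b ≠ 0)
    (hbQ : b.natAbs.primeFactors ⊆ Q) {x : ℤ} {w : List (ZMod p)} (h : IsW Q p x w)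
    (hx : x ≠ 0) : IsW Q p (b * x) (w.map (fun y => t p b * y)) := by
  have hpp := hQ p hp
  induction h with
  | nil x hc =>
    have h1 : ¬ ∃ l, IsCut Q (b * x) l := by
      rintro ⟨l, hl⟩
      obtain ⟨l', rfl⟩ := cut_of_mul hb hbQ hx hl
      exact hc ⟨l', (isCut_mul hb hbQ hx).mp hl⟩
    have := IsW.nil (p := p) (b * x) h1
    rw [t_mul hpp hb hx] at this
    simpa using this
  | cons x l w hl hw ih =>
    have h1 : IsMinCut Q (b * x) (b * l) := by
      refine ⟨(isCut_mul hb hbQ hx).mpr hl.1, ?_⟩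
      intro l' hl'
      obtain ⟨l'', rfl⟩ := cut_of_mul hb hbQ hx hl'
      have := hl.2 l'' ((isCut_mul hb hbQ hx).mp hl')
      rw [Int.natAbs_mul, Int.natAbs_mul]
      exact Nat.mul_le_mul_left _ this
    have h2 := ih hl.1.1
    have e : b * (x - l) = b * x - b * l := by ring
    rw [e] at h2
    have := IsW.cons (p := p) (b * x) (b * l) _ h1 h2
    rw [t_mul hpp hb hx] at this
    simpa using this

end Pool.Agent.MP68293e
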