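import Mathlib
import Pool.Agent.MP68293e.Decomp

/-!
The word of types of `z + w` is the concatenation of the words of `z` and `w`, if `w` is
highly divisible by every prime of `Q`.
-/

namespace Pool.Agent.MP68293e

variable {Q : Finset ℕ} {p : ℕ}

theorem small_v (hQ : ∀ q ∈ Q, q.Prime) {z u w : ℤ} (hu : u ≠ 0)
    (hsize : u.natAbs ≤ 2 * z.natAbs) (hw : ∀ q ∈ Q, (q : ℤ) ^ (4 * z.natAbs) ∣ w)
    {q : ℕ} (hq : q ∈ Q) : v q u < 4 * z.natAbs ∧ u + w ≠ 0 ∧ v q (u + w) = v q u := by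
  have hqp := hQ q hq
  have h1 : q ^ v q u ≤ u.natAbs := pow_v_le hu
  have h2 : 4 * z.natAbs < 2 ^ (4 * z.natAbs) := Nat.lt_two_pow_self
  have h3 : 2 ^ (4 * z.natAbs) ≤ q ^ (4 * z.natAbs) := Nat.pow_le_pow_left hqp.two_le _
  have h4 : q ^ v q u < q ^ (4 * z.natAbs) := by omega
  have h5 : v q u < 4 * z.natAbs := (Nat.pow_lt_pow_iff_right hqp.one_lt).mp h4
  refine ⟨h5, ?_⟩
  have h6 : (q : ℤ) ^ (v q u + 1) ∣ w := dvd_trans (pow_dvd_pow _ h5) (hw q hq)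
  exact v_add_of_dvd hqp hu h6

theorem small_qpart (hQ : ∀ q ∈ Q, q.Prime) {z u w : ℤ} (hu : u ≠ 0)
    (hsize : u.natAbs ≤ 2 * z.natAbs) (hw : ∀ q ∈ Q, (q : ℤ) ^ (4 * z.natAbs) ∣ w) :
    qpart Q (u + w) = qpart Q u := by
  unfold qpart
  apply Finset.prod_congr rfl
  intro q hq
  rw [(small_v hQ hu hsize hw hq).2.2]

theorem cut_add (hQ : ∀ q ∈ Q, q.Prime) (hp : p ∈ Q) {z w l : ℤ} (hz : z ≠ 0)
    (hw : ∀ q ∈ Q, (q : ℤ) ^ (4 * z.natAbs) ∣ w) (h : IsCut Q z l) : IsCut Q (z + w) l := by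
  have h0 := cut_size hQ h
  have h1 : (z - l).natAbs ≤ 2 * z.natAbs := by omega
  have e : z + w - l = (z - l) + w := by ring
  refine ⟨?_, ?_, ?_⟩
  · rw [e]; exact (small_v hQ h.1 h1 hw hp).2.1
  · intro q hq
    rw [e, (small_v hQ h.1 h1 hw hq).2.2, (small_v hQ hz (by omega) hw hq).2.2]
    exact h.2.1 q hq
  · rw [e, small_qpart hQ h.1 h1 hw]
    exact h.2.2

theorem self_cut (hQ : ∀ q ∈ Q, q.Prime) (hp : p ∈ Q) {z w : ℤ} (hz : z ≠ 0) (hw0 : w ≠ 0)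
    (hw : ∀ q ∈ Q, (q : ℤ) ^ (4 * z.natAbs) ∣ w) : IsCut Q (z + w) z := by
  have e : z + w - z = w := by ring
  have hv : ∀ q ∈ Q, 4 * z.natAbs ≤ v q w := fun q hq =>
    (pow_dvd_iff (hQ q hq) hw0 _).mp (hw q hq)
  refine ⟨by rw [e]; exact hw0, ?_, ?_⟩
  · intro q hq
    have h1 := small_v hQ hz (by omega) hw hq
    rw [e, h1.2.2]
    have := hv q hq
    omega
  · rw [e]
    have h1 := pow_v_le_qpart hQ hp w
    have h2 : 4 * z.natAbs < 2 ^ (4 * z.natAbs) := Nat.lt_two_pow_self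
    have h3 : 2 ^ (4 * z.natAbs) ≤ p ^ (4 * z.natAbs) :=
      Nat.pow_le_pow_left (hQ p hp).two_le _
    have h4 : p ^ (4 * z.natAbs) ≤ p ^ v p w :=
      Nat.pow_le_pow_right (hQ p hp).pos (hv p hp)
    omega

theorem cut_of_add (hQ : ∀ q ∈ Q, q.Prime) {z w l : ℤ} (hz : z ≠ 0)
    (hw : ∀ q ∈ Q, (q : ℤ) ^ (4 * z.natAbs) ∣ w) (hl : l.natAbs ≤ z.natAbs) (hlz : l ≠ z)
    (h : IsCut Q (z + w) l) : IsCut Q z l := by
  have h0 : z - l ≠ 0 := fun h => hlz (by linarith)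
  have h1 : (z - l).natAbs ≤ 2 * z.natAbs := by omega
  have e : z + w - l = (z - l) + w := by ring
  refine ⟨h0, ?_, ?_⟩
  · intro q hq
    have := h.2.1 q hq
    rw [e, (small_v hQ h0 h1 hw hq).2.2, (small_v hQ hz (by omega) hw hq).2.2] at this
    exact this
  · have := h.2.2
    rw [e, small_qpart hQ h0 h1 hw] at this
    exact this

theorem t_add_small (hQ : ∀ q ∈ Q, q.Prime) (hp : p ∈ Q) {z w : ℤ} (hz : z ≠ 0)
    (hw : ∀ q ∈ Q, (q : ℤ) ^ (4 * z.natAbs) ∣ w) : t p (z + w) = t p z := by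
  apply t_add (hQ p hp) hz
  exact dvd_trans (pow_dvd_pow _ (small_v hQ hz (by omega) hw hp).1) (hw p hp)

theorem IsW.append (hQ : ∀ q ∈ Q, q.Prime) (hp : p ∈ Q) {z : ℤ} {wz : List (ZMod p)}
    (h : IsW Q p z wz) (hz : z ≠ 0) :
    ∃ T : ℕ, ∀ w : ℤ, w ≠ 0 → (∀ q ∈ Q, (q : ℤ) ^ T ∣ w) → ∀ ww, IsW Q p w ww →
      IsW Q p (z + w) (wz ++ ww) := by
  induction h with
  | nil z hc =>
    refine ⟨4 * z.natAbs, ?_⟩
    intro w hw0 hw ww hww
    have h1 : IsMinCut Q (z + w) z := by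
      refine ⟨self_cut hQ hp hz hw0 hw, ?_⟩
      intro l' hl'
      by_contra hlt
      push Not at hlt
      apply hc
      exact ⟨l', cut_of_add hQ hz hw hlt.le (by rintro rfl; omega) hl'⟩
    have h2 : IsW Q p (z + w - z) ww := by
      have e : z + w - z = w := by ring
      rw [e]; exact hww
    have h3 := IsW.cons (p := p) (z + w) z ww h1 h2
    rw [t_add_small hQ hp hz hw] at h3
    simpa using h3
  | cons z l w' hl hw' ih =>
    obtain ⟨T', hT'⟩ := ih hl.1.1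
    refine ⟨max (4 * z.natAbs) T', ?_⟩
    intro w hw0 hw ww hww
    have hw1 : ∀ q ∈ Q, (q : ℤ) ^ (4 * z.natAbs) ∣ w := fun q hq =>
      dvd_trans (pow_dvd_pow _ (le_max_left _ _)) (hw q hq)
    have hw2 : ∀ q ∈ Q, (q : ℤ) ^ T' ∣ w := fun q hq =>
      dvd_trans (pow_dvd_pow _ (le_max_right _ _)) (hw q hq)
    have h1 : IsMinCut Q (z + w) l := by
      refine ⟨cut_add hQ hp hz hw1 hl.1, ?_⟩
      intro l' hl'
      have h0 := cut_size hQ hl.1
      by_contra hlt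
      push Not at hlt
      have h2 := hl.2 l' (cut_of_add hQ hz hw1 (by omega) (by rintro rfl; omega) hl')
      omega
    have h2 := hT' w hw0 hw2 ww hww
    have e : (z - l) + w = z + w - l := by ring
    rw [e] at h2
    have h3 := IsW.cons (p := p) (z + w) l _ h1 h2
    rw [t_add_small hQ hp hz hw1] at h3
    simpa using h3

end Pool.Agent.MP68293e
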