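import Mathlib
import Pool.Agent.MP68293e.Append

/-!
Counting consecutive ratios in the word of types, and the word of a linear combination.
-/

namespace Pool.Agent.MP68293e

variable {Q : Finset ℕ} {p : ℕ}

/-- first entry -/
def hd : List (ZMod p) → ZMod p
  | [] => 0
  | a :: _ => a

/-- last entry -/
def lst : List (ZMod p) → ZMod p
  | [] => 0
  | [a] => a
  | _ :: b :: l => lst (b :: l)

/-- `1` if `P` holds and `0` otherwise -/
noncomputable def ind (P : Prop) : ℕ := by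
  classical
  exact if P then 1 else 0

theorem ind_true {P : Prop} (h : P) : ind P = 1 := by unfold ind; simp [h]

theorem ind_false {P : Prop} (h : ¬ P) : ind P = 0 := by unfold ind; simp [h]

theorem ind_le (P : Prop) : ind P ≤ 1 := by
  by_cases h : P
  · rw [ind_true h]
  · rw [ind_false h]; omega

/-- number of consecutive pairs `a, b` with `b = γ a` -/
noncomputable def cnt (γ : ZMod p) : List (ZMod p) → ℕ
  | [] => 0
  | [_] => 0
  | a :: b :: l => ind (b = γ * a) + cnt γ (b :: l)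

theorem hd_append (l1 l2 : List (ZMod p)) (h : l1 ≠ []) : hd (l1 ++ l2) = hd l1 := by
  cases l1 with
  | nil => exact absurd rfl h
  | cons a l => rfl

theorem lst_append (l1 l2 : List (ZMod p)) (h : l2 ≠ []) : lst (l1 ++ l2) = lst l2 := by
  induction l1 with
  | nil => rfl
  | cons a l ih =>
    rw [List.cons_append]
    cases hl : l ++ l2 with
    | nil => simp at hl; exact absurd hl.2 h
    | cons b l' =>
      rw [hl] at ih
      exact ih

theorem cnt_append (γ : ZMod p) (l1 l2 : List (ZMod p)) (h1 : l1 ≠ []) (h2 : l2 ≠ []) :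
    cnt γ (l1 ++ l2) = cnt γ l1 + ind (hd l2 = γ * lst l1) + cnt γ l2 := by
  induction l1 with
  | nil => exact absurd rfl h1
  | cons a l ih =>
    cases l with
    | nil =>
      cases l2 with
      | nil => exact absurd rfl h2
      | cons b l' => simp [cnt, hd, lst]
    | cons b l' =>
      have := ih (by simp)
      simp only [List.cons_append] at this ⊢
      simp only [cnt, lst]
      rw [this]
      ring

theorem hd_map (c : ZMod p) (l : List (ZMod p)) : hd (l.map (fun y => c * y)) = c * hd l := by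
  cases l with
  | nil => simp [hd]
  | cons a l => simp [hd]

theorem lst_map (c : ZMod p) (l : List (ZMod p)) : lst (l.map (fun y => c * y)) = c * lst l := by
  induction l with
  | nil => simp [lst]
  | cons a l ih =>
    cases l with
    | nil => simp [lst]
    | cons b l' =>
      simp only [List.map_cons, lst] at ih ⊢
      exact ih

theorem cnt_map [Fact p.Prime] (γ c : ZMod p) (hc : c ≠ 0) (l : List (ZMod p)) :
    cnt γ (l.map (fun y => c * y)) = cnt γ l := by
  induction l with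
  | nil => simp [cnt]
  | cons a l ih =>
    cases l with
    | nil => simp [cnt]
    | cons b l' =>
      simp only [List.map_cons, cnt] at ih ⊢
      rw [ih]
      congr 1
      have : c * b = γ * (c * a) ↔ b = γ * a := by
        rw [show γ * (c * a) = c * (γ * a) by ring]
        exact mul_right_inj' hc
      simp [this]

/-- the word of types of a nonzero integer (any list if `x = 0`) -/
noncomputable def W (Q : Finset ℕ) (p : ℕ) (x : ℤ) : List (ZMod p) := by
  classical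
  exact if h : ∃ w, IsW Q p x w then h.choose else []

theorem W_spec (hQ : ∀ q ∈ Q, q.Prime) (hp : p ∈ Q) (hp3 : 3 ≤ p) {x : ℤ} (hx : x ≠ 0) :
    IsW Q p x (W Q p x) := by
  have h := exists_W hQ hp hp3 _ x hx le_rfl
  unfold W
  rw [dif_pos h]
  exact h.choose_spec

theorem W_eq (hQ : ∀ q ∈ Q, q.Prime) (hp : p ∈ Q) (hp3 : 3 ≤ p) {x : ℤ} (hx : x ≠ 0)
    {w : List (ZMod p)} (h : IsW Q p x w) : W Q p x = w :=
  (W_spec hQ hp hp3 hx).unique hQ hp (by omega) hx _ h

theorem W_ne_nil (hQ : ∀ q ∈ Q, q.Prime) (hp : p ∈ Q) (hp3 : 3 ≤ p) {x : ℤ} (hx : x ≠ 0) :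
    W Q p x ≠ [] := by
  obtain ⟨w, hw⟩ := (W_spec hQ hp hp3 hx).exists_head
  rw [hw]; simp

theorem hd_W (hQ : ∀ q ∈ Q, q.Prime) (hp : p ∈ Q) (hp3 : 3 ≤ p) {x : ℤ} (hx : x ≠ 0) :
    hd (W Q p x) = t p x := by
  obtain ⟨w, hw⟩ := (W_spec hQ hp hp3 hx).exists_head
  rw [hw]; rfl

theorem W_mul (hQ : ∀ q ∈ Q, q.Prime) (hp : p ∈ Q) (hp3 : 3 ≤ p) {b : ℤ} (hb : b ≠ 0)
    (hbQ : b.natAbs.primeFactors ⊆ Q) {x : ℤ} (hx : x ≠ 0) :
    W Q p (b * x) = (W Q p x).map (fun y => t p b * y) :=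
  W_eq hQ hp hp3 (mul_ne_zero hb hx) ((W_spec hQ hp hp3 hx).mul hQ hp hb hbQ hx)

theorem W_append (hQ : ∀ q ∈ Q, q.Prime) (hp : p ∈ Q) (hp3 : 3 ≤ p) {z : ℤ} (hz : z ≠ 0) :
    ∃ T : ℕ, ∀ w : ℤ, w ≠ 0 → (∀ q ∈ Q, (q : ℤ) ^ T ∣ w) →
      z + w ≠ 0 ∧ W Q p (z + w) = W Q p z ++ W Q p w := by
  obtain ⟨T, hT⟩ := (W_spec hQ hp hp3 hz).append hQ hp hz
  refine ⟨max T (4 * z.natAbs), ?_⟩
  intro w hw0 hw
  have hw1 : ∀ q ∈ Q, (q : ℤ) ^ (4 * z.natAbs) ∣ w := fun q hq =>
      dvd_trans (pow_dvd_pow _ (le_max_right _ _)) (hw q hq)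
  have hw2 : ∀ q ∈ Q, (q : ℤ) ^ T ∣ w := fun q hq =>
      dvd_trans (pow_dvd_pow _ (le_max_left _ _)) (hw q hq)
  have h0 : z + w ≠ 0 := (small_v hQ hz (by omega) hw1 hp).2.1
  exact ⟨h0, W_eq hQ hp hp3 h0 (hT w hw0 hw2 _ (W_spec hQ hp hp3 hw0))⟩

/-- The word of a linear combination `∑ aᵢ x_{n(i)}` of a sequence with fixed first type,
fixed last type and fixed counts modulo `K`. -/
theorem W_sum [Fact p.Prime] (hQ : ∀ q ∈ Q, q.Prime) (hp : p ∈ Q) (hp3 : 3 ≤ p)
    (x : ℕ → ℤ) (hx0 : ∀ n, x n ≠ 0)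
    (hx : ∀ T : ℕ, ∃ N, ∀ n, N ≤ n → ∀ q ∈ Q, (q : ℤ) ^ T ∣ x n)
    (K : ℕ) (t0 tr : ZMod p) (c : ZMod p → ZMod K)
    (h0 : ∀ n, hd (W Q p (x n)) = t0) (hr : ∀ n, lst (W Q p (x n)) = tr)
    (hc : ∀ γ n, ((cnt γ (W Q p (x n)) : ℕ) : ZMod K) = c γ) (m : ℕ) :
    ∀ (a : Fin (m + 1) → ℤ), (∀ i, a i ≠ 0 ∧ (a i).natAbs.primeFactors ⊆ Q) → ∀ n0 : ℕ,
      ∃ n : Fin (m + 1) → ℕ, StrictMono n ∧ (∀ i, n0 ≤ n i) ∧ (∑ i, a i * x (n i)) ≠ 0 ∧
        hd (W Q p (∑ i, a i * x (n i))) = t p (a 0) * t0 ∧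
        lst (W Q p (∑ i, a i * x (n i))) = t p (a (Fin.last m)) * tr ∧
        ∀ γ, ((cnt γ (W Q p (∑ i, a i * x (n i))) : ℕ) : ZMod K) = (m + 1) * c γ +
          ∑ i : Fin m, ((ind (t p (a i.succ) * t0 = γ * (t p (a i.castSucc) * tr)) : ℕ) :
            ZMod K) := by
  have hpp := hQ p hp
  induction m with
  | zero =>
    intro a ha n0
    refine ⟨fun _ => n0, ?_, fun _ => le_rfl, ?_, ?_, ?_, ?_⟩
    · intro i j hij
      exact absurd hij (by omega)
    · simp only [Fin.sum_univ_one, Nat.reduceAdd]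
      exact mul_ne_zero (ha 0).1 (hx0 _)
    · simp only [Fin.sum_univ_one, Nat.reduceAdd]
      rw [W_mul hQ hp hp3 (ha 0).1 (ha 0).2 (hx0 _), hd_map, h0]
    · simp only [Fin.sum_univ_one, Nat.reduceAdd]
      rw [W_mul hQ hp hp3 (ha 0).1 (ha 0).2 (hx0 _), lst_map, hr]
      rfl
    · intro γ
      simp only [Fin.sum_univ_one, Nat.reduceAdd]
      rw [W_mul hQ hp hp3 (ha 0).1 (ha 0).2 (hx0 _),
        cnt_map γ _ (t_ne_zero hpp (ha 0).1), hc]
      simp
  | succ m ih =>
    intro a ha n0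
    have hz : a 0 * x n0 ≠ 0 := mul_ne_zero (ha 0).1 (hx0 _)
    obtain ⟨T, hT⟩ := W_append hQ hp hp3 hz
    obtain ⟨N, hN⟩ := hx T
    obtain ⟨n', hn1, hn2, hn3, hn4, hn5, hn6⟩ :=
      ih (fun i => a i.succ) (fun i => ha i.succ) (max (n0 + 1) N)
    set w := ∑ i, a (Fin.succ i) * x (n' i) with hw
    have hwdvd : ∀ q ∈ Q, (q : ℤ) ^ T ∣ w := by
      intro q hq
      rw [hw]
      apply Finset.dvd_sum
      intro i _
      exact dvd_mul_of_dvd_right
        (hN (n' i) (le_trans (le_max_right _ _) (hn2 i)) q hq) _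
    obtain ⟨hs1, hs2⟩ := hT w hn3 hwdvd
    have hsum : ∑ i : Fin (m + 1 + 1), a i * x ((Fin.cons n0 n' : Fin (m + 1 + 1) → ℕ) i)
        = a 0 * x n0 + w := by
      rw [Fin.sum_univ_succ]
      simp [hw]
    have hwz : W Q p (a 0 * x n0) = (W Q p (x n0)).map (fun y => t p (a 0) * y) :=
      W_mul hQ hp hp3 (ha 0).1 (ha 0).2 (hx0 _)
    refine ⟨Fin.cons n0 n', ?_, ?_, ?_, ?_, ?_, ?_⟩
    · intro i j hij
      induction i using Fin.cases with
      | zero =>
        induction j using Fin.cases with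
        | zero => exact absurd hij (lt_irrefl _)
        | succ j =>
          simp only [Fin.cons_zero, Fin.cons_succ]
          have := hn2 j
          have := le_max_left (n0 + 1) N
          omega
      | succ i =>
        induction j using Fin.cases with
        | zero => exact absurd hij (by simp)
        | succ j =>
          simp only [Fin.cons_succ]
          exact hn1 (Fin.succ_lt_succ_iff.mp hij)
    · intro i
      induction i using Fin.cases with
      | zero => simp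
      | succ i =>
        simp only [Fin.cons_succ]
        have := hn2 i
        have := le_max_left (n0 + 1) N
        omega
    · rw [hsum]; exact hs1
    · rw [hsum, hs2, hd_append _ _ (W_ne_nil hQ hp hp3 hz), hwz, hd_map, h0]
    · rw [hsum, hs2, lst_append _ _ (W_ne_nil hQ hp hp3 hn3), hn5]
      rfl
    · intro γ
      rw [hsum, hs2, cnt_append γ _ _ (W_ne_nil hQ hp hp3 hz) (W_ne_nil hQ hp hp3 hn3)]
      push_cast
      rw [hn6 γ, hn4, hwz, lst_map, cnt_map γ _ (t_ne_zero hpp (ha 0).1), hc, hr]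
      rw [Fin.sum_univ_succ (n := m)]
      simp only [Fin.castSucc_zero, Fin.succ_zero_eq_one, Fin.castSucc_succ]
      push_cast
      ring

end Pool.Agent.MP68293e
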