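import Mathlib
import Pool.Agent.MP68293e.Count

/-!
Necessary conditions for a monochromatic family `x_n`, `∑ aᵢ x_{n(i)}`.
-/

namespace Pool.Agent.MP68293e

variable {Q : Finset ℕ} {p : ℕ}

/-- the part of `x` prime to `q`, with sign -/
def u (q : ℕ) (x : ℤ) : ℤ := x / (q : ℤ) ^ v q x

theorem u_mul {q : ℕ} (hq : q.Prime) {x y : ℤ} (hx : x ≠ 0) (hy : y ≠ 0) :
    u q (x * y) = u q x * u q y := by
  have hq0 : (q : ℤ) ≠ 0 := by exact_mod_cast hq.ne_zero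
  have h1 := eq_mul_unit hq hx
  have h2 := eq_mul_unit hq hy
  have h3 : x * y = (q : ℤ) ^ v q (x * y) * (u q x * u q y) := by
    rw [v_mul q hx hy]
    unfold u
    conv_lhs => rw [h1, h2]
    ring
  conv_lhs => unfold u
  rw [Int.ediv_eq_of_eq_mul_right (pow_ne_zero _ hq0) h3]

theorem u_add {q : ℕ} (hq : q.Prime) {z c : ℤ} (hz : z ≠ 0) {M : ℕ} (hM : 1 ≤ M) :
    z + (q : ℤ) ^ (v q z + M) * c ≠ 0 ∧ v q (z + (q : ℤ) ^ (v q z + M) * c) = v q z ∧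
    u q (z + (q : ℤ) ^ (v q z + M) * c) = u q z + (q : ℤ) ^ M * c := by
  have hq0 : (q : ℤ) ≠ 0 := by exact_mod_cast hq.ne_zero
  have hd : (q : ℤ) ^ (v q z + 1) ∣ (q : ℤ) ^ (v q z + M) * c :=
    dvd_mul_of_dvd_left (pow_dvd_pow _ (by omega)) _
  have h1 := v_add_of_dvd hq hz hd
  refine ⟨h1.1, h1.2, ?_⟩
  have h2 := eq_mul_unit hq hz
  conv_lhs => unfold u
  rw [h1.2]
  have h3 : z + (q : ℤ) ^ (v q z + M) * c = (q : ℤ) ^ (v q z) * (u q z + (q : ℤ) ^ M * c) := by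
    unfold u
    rw [mul_add, ← h2]
    ring
  rw [Int.ediv_eq_of_eq_mul_right (pow_ne_zero _ hq0) h3]

theorem u_eq_self {q : ℕ} {s : ℤ} (h : v q s = 0) : u q s = s := by
  unfold u; rw [h]; simp

/-- If the valuations modulo `M` and the unit parts modulo `N0` are constant, then the
`q`-adic valuations of the sequence tend to infinity. -/
theorem dvd_eventually {q : ℕ} (hq : q.Prime) (m : ℕ) (a : Fin (m + 1) → ℤ)
    (s : ℤ) (hs : s = ∑ i, a i) (hs0 : s ≠ 0) (hs1 : s ≠ 1) (x : ℕ → ℤ) (hx0 : ∀ n, x n ≠ 0)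
    (M N0 : ℕ) (hM : M = s.natAbs + 2) (hN : q ^ M ∣ N0) (cv : ZMod M) (cu : ZMod N0)
    (hv : ∀ n, (v q (x n) : ZMod M) = cv) (hu : ∀ n, (u q (x n) : ZMod N0) = cu)
    (hvy : ∀ n : Fin (m + 1) → ℕ, StrictMono n → (v q (∑ i, a i * x (n i)) : ZMod M) = cv)
    (huy : ∀ n : Fin (m + 1) → ℕ, StrictMono n → (u q (∑ i, a i * x (n i)) : ZMod N0) = cu)
    (T : ℕ) : ∀ᶠ n in Filter.atTop, (q : ℤ) ^ T ∣ x n := by
  by_contra hcon
  rw [Filter.not_eventually] at hcon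
  have hq0 : (q : ℤ) ≠ 0 := by exact_mod_cast hq.ne_zero
  set E := T + v q s + M with hE
  have : NeZero (q ^ E) := ⟨pow_ne_zero _ hq.ne_zero⟩
  -- pigeonhole on residues modulo q ^ E
  obtain ⟨φ1, hφ1, hφ1'⟩ := Filter.extraction_of_frequently_atTop hcon
  obtain ⟨ρ, hρ⟩ := Finite.exists_infinite_fiber (fun n : ℕ => (x (φ1 n) : ZMod (q ^ E)))
  rw [Set.infinite_coe_iff] at hρ
  have hfreq : ∃ᶠ n in Filter.atTop, n ∈ ((fun n : ℕ => (x (φ1 n) : ZMod (q ^ E))) ⁻¹' {ρ}) :=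
    Nat.frequently_atTop_iff_infinite.mpr hρ
  obtain ⟨φ2, hφ2, hφ2'⟩ := Filter.extraction_of_frequently_atTop hfreq
  let φ : ℕ → ℕ := fun n => φ1 (φ2 n)
  have hφ : StrictMono φ := hφ1.comp hφ2
  have hmod : ∀ n, (x (φ n) : ZMod (q ^ E)) = ρ := fun n => hφ2' n
  have hnd : ¬ (q : ℤ) ^ T ∣ x (φ 0) := hφ1' _
  -- the combination
  let n : Fin (m + 1) → ℕ := fun i => φ i
  have hn : StrictMono n := fun i j hij => hφ hij
  set x0 := x (φ 0) with hx00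
  have hx00' : x0 ≠ 0 := hx0 _
  have hz : s * x0 ≠ 0 := mul_ne_zero hs0 hx00'
  have hvx0 : v q x0 < T := by
    by_contra h
    push Not at h
    exact hnd ((pow_dvd_iff hq (hx0 _) _).mpr h)
  have hvz : v q (s * x0) + M ≤ E := by
    rw [v_mul q hs0 hx00']; omega
  have hdvd : (q : ℤ) ^ (v q (s * x0) + M) ∣ ∑ i, a i * (x (n i) - x0) := by
    apply dvd_trans (pow_dvd_pow _ hvz)
    apply Finset.dvd_sum
    intro i _
    apply dvd_mul_of_dvd_right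
    have h1 : ((x (n i) - x0 : ℤ) : ZMod (q ^ E)) = 0 := by
      push_cast
      rw [hmod i, hx00, hmod 0, sub_self]
    rw [ZMod.intCast_zmod_eq_zero_iff_dvd] at h1
    exact_mod_cast h1
  obtain ⟨c, hc⟩ := hdvd
  have hy : ∑ i, a i * x (n i) = s * x0 + (q : ℤ) ^ (v q (s * x0) + M) * c := by
    rw [← hc, hs, Finset.sum_mul, ← Finset.sum_add_distrib]
    apply Finset.sum_congr rfl
    intro i _
    ring
  have hM1 : 1 ≤ M := by omega
  obtain ⟨-, h2, h3⟩ := u_add hq hz (c := c) hM1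
  rw [← hy] at h2 h3
  have h4 := hvy n hn
  have h5 := huy n hn
  rw [h2, v_mul q hs0 hx00'] at h4
  rw [h3, u_mul hq hs0 hx00'] at h5
  have h6 := hv (φ 0)
  have h7 := hu (φ 0)
  rw [← hx00] at h6 h7
  -- valuation of s is zero
  have h8 : ((v q s : ℕ) : ZMod M) = 0 := by
    push_cast at h4
    rw [h6] at h4
    exact add_eq_right.mp h4
  have h9 : v q s = 0 := by
    rw [ZMod.natCast_eq_zero_iff] at h8
    by_contra hne
    have h10 := Nat.le_of_dvd (Nat.pos_of_ne_zero hne) h8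
    have h11 : q ^ v q s ≤ s.natAbs := pow_v_le hs0
    have h12 : v q s < q ^ v q s := Nat.lt_pow_self hq.one_lt
    omega
  rw [u_eq_self h9] at h5
  -- reduce modulo q ^ M
  have h13 : ((s * u q x0 + (q : ℤ) ^ M * c : ℤ) : ZMod (q ^ M)) = ((u q x0 : ℤ) : ZMod (q ^ M)) := by
    have e := h5.trans h7.symm
    have e2 : ((s * u q x0 + (q : ℤ) ^ M * c - u q x0 : ℤ) : ZMod N0) = 0 := by
      push_cast at e ⊢
      rw [e]; ring
    rw [ZMod.intCast_zmod_eq_zero_iff_dvd] at e2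
    have e3 : ((q ^ M : ℕ) : ℤ) ∣ s * u q x0 + (q : ℤ) ^ M * c - u q x0 :=
      dvd_trans (by exact_mod_cast hN) e2
    rw [← ZMod.intCast_zmod_eq_zero_iff_dvd] at e3
    have e4 : ((s * u q x0 + (q : ℤ) ^ M * c : ℤ) : ZMod (q ^ M)) -
      ((u q x0 : ℤ) : ZMod (q ^ M)) = 0 := by
      rw [← e3]; push_cast; ring
    exact sub_eq_zero.mp e4
  have h14 : (q : ℤ) ^ M ∣ (s - 1) * u q x0 := by
    have e : (((s - 1) * u q x0 : ℤ) : ZMod (q ^ M)) = 0 := by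
      have e1 : (((q : ℤ) ^ M * c : ℤ) : ZMod (q ^ M)) = 0 := by
        rw [ZMod.intCast_zmod_eq_zero_iff_dvd]
        push_cast
        exact dvd_mul_right _ _
      have e2 : ((s - 1) * u q x0 : ℤ) = (s * u q x0 + (q : ℤ) ^ M * c) - u q x0 -
        (q : ℤ) ^ M * c := by ring
      rw [e2, Int.cast_sub, e1, Int.cast_sub, h13]
      ring
    rw [ZMod.intCast_zmod_eq_zero_iff_dvd] at e
    exact_mod_cast e
  have h15 : IsCoprime ((q : ℤ) ^ M) (u q x0) := by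
    apply IsCoprime.pow_left
    rw [Prime.coprime_iff_not_dvd (Nat.prime_iff_prime_int.mp hq)]
    exact unit_not_dvd hq (hx0 _)
  have h16 : (q : ℤ) ^ M ∣ s - 1 := h15.dvd_of_dvd_mul_right h14
  have h17 : s - 1 ≠ 0 := sub_ne_zero.mpr hs1
  have h18 : (q : ℤ) ^ M ≤ |s - 1| := Int.le_of_dvd (abs_pos.mpr h17) ((dvd_abs _ _).mpr h16)
  have h19 : M < q ^ M := Nat.lt_pow_self hq.one_lt
  have h20 : |s - 1| ≤ s.natAbs + 1 := by
    rw [abs_le]; constructor <;> omega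
  have h21 : (M : ℤ) < (q : ℤ) ^ M := by exact_mod_cast h19
  have h22 : (M : ℤ) = s.natAbs + 2 := by exact_mod_cast hM
  linarith

end Pool.Agent.MP68293e
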