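import Mathlib
import Pool.Agent.MP68293e.Neg

/-!
The two negative results: a finite colouring without a monochromatic family.
-/

namespace Pool.Agent.MP68293e

/-- the colouring `c` admits no monochromatic family `x_n`, `∑ aᵢ x_{n(i)}` of positive
integers -/
def Bad {C : Type} {k : ℕ} (a : Fin k → ℤ) (c : ℤ → C) : Prop :=
  ∀ x : ℕ → ℤ, (∀ n, 0 < x n) →
    (∀ n : Fin k → ℕ, StrictMono n → 0 < ∑ i, a i * x (n i)) →
    ¬ ∃ col, (∀ n, c (x n) = col) ∧
      ∀ n : Fin k → ℕ, StrictMono n → c (∑ i, a i * x (n i)) = col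

theorem lst_isW_ne_zero {Q : Finset ℕ} {p : ℕ} (hp : p.Prime) {x : ℤ} {w : List (ZMod p)}
    (h : IsW Q p x w) (hx : x ≠ 0) : lst w ≠ 0 := by
  induction h with
  | nil x _ => exact t_ne_zero hp hx
  | cons x l w hl hw ih =>
    have h1 := ih hl.1.1
    obtain ⟨w', hw'⟩ := hw.exists_head
    rw [hw'] at h1 ⊢
    exact h1

theorem neg_main (m : ℕ) (a : Fin (m + 1) → ℤ) (ha : ∀ i, a i ≠ 0)
    (hs0 : ∑ i, a i ≠ 0) (hs1 : ∑ i, a i ≠ 1) (hna : ¬ ∀ i, a i = 1) :
    ∃ (C : Type) (_ : Finite C) (c : ℤ → C), Bad a c := by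
  classical
  set s := ∑ i, a i with hs
  -- a bound
  set A := 2 + ∑ i, (a i).natAbs with hA
  have hAi : ∀ i, (a i).natAbs + 2 ≤ A := by
    intro i
    have : (a i).natAbs ≤ ∑ i, (a i).natAbs :=
      Finset.single_le_sum (f := fun i => (a i).natAbs) (fun _ _ => Nat.zero_le _)
      (Finset.mem_univ i)
    omega
  obtain ⟨p, hpB, hpp⟩ := Nat.exists_infinite_primes (A ^ (m + 1) + A + 3)
  have hfact : Fact p.Prime := ⟨hpp⟩
  set Q : Finset ℕ := insert p (Finset.univ.biUnion fun i => (a i).natAbs.primeFactors) with hQdef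
  have hp : p ∈ Q := Finset.mem_insert_self _ _
  have hQ : ∀ q ∈ Q, q.Prime := by
    intro q hq
    rw [hQdef, Finset.mem_insert, Finset.mem_biUnion] at hq
    rcases hq with rfl | ⟨i, _, hi⟩
    · exact hpp
    · exact Nat.prime_of_mem_primeFactors hi
  have haQ : ∀ i, a i ≠ 0 ∧ (a i).natAbs.primeFactors ⊆ Q := by
    intro i
    refine ⟨ha i, ?_⟩
    intro q hq
    rw [hQdef, Finset.mem_insert, Finset.mem_biUnion]
    exact Or.inr ⟨i, Finset.mem_univ _, hq⟩
  have hp3 : 3 ≤ p := by omega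
  have hpA : A ^ (m + 1) + A < p := by omega
  set M := s.natAbs + 2 with hM
  set N0 := ∏ q ∈ Q, q ^ M with hN0
  have hN0pos : N0 ≠ 0 := by
    rw [hN0, Finset.prod_ne_zero_iff]
    intro q hq
    exact pow_ne_zero _ (hQ q hq).ne_zero
  set K := max m 1 with hK
  have hKpos : K ≠ 0 := by omega
  have i1 : NeZero M := ⟨by omega⟩
  have i2 : NeZero N0 := ⟨hN0pos⟩
  have i3 : NeZero K := ⟨hKpos⟩
  have i4 : NeZero p := ⟨hpp.ne_zero⟩
  refine ⟨({q : ℕ // q ∈ Q} → ZMod M × ZMod N0) × (ZMod p × ZMod p × (ZMod p → ZMod K)),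
    inferInstance, fun x => (fun q => ((v q x : ZMod M), (u q x : ZMod N0)),
      t p x, lst (W Q p x), fun γ => ((cnt γ (W Q p x) : ℕ) : ZMod K)), ?_⟩
  intro x hxpos hypos
  rintro ⟨⟨c1, t0, tr, cc⟩, hc1, hc2⟩
  simp only [Prod.mk.injEq] at hc1 hc2
  have hx0 : ∀ n, x n ≠ 0 := fun n => (hxpos n).ne'
  -- valuations tend to infinity
  have hdiv : ∀ T : ℕ, ∃ N, ∀ n, N ≤ n → ∀ q ∈ Q, (q : ℤ) ^ T ∣ x n := by
    intro T
    have h1 : ∀ q ∈ Q, ∀ᶠ n in Filter.atTop, (q : ℤ) ^ T ∣ x n := by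
      intro q hq
      refine dvd_eventually (hQ q hq) m a s hs hs0 hs1 x hx0 M N0 hM ?_ (c1 ⟨q, hq⟩).1
        (c1 ⟨q, hq⟩).2 ?_ ?_ ?_ ?_ T
      · rw [hN0]; exact Finset.dvd_prod_of_mem (fun q => q ^ M) hq
      · intro n
        have := congrFun (hc1 n).1 ⟨q, hq⟩
        simp only at this
        rw [← this]
      · intro n
        have := congrFun (hc1 n).1 ⟨q, hq⟩
        simp only at this
        rw [← this]
      · intro n hn
        have := congrFun (hc2 n hn).1 ⟨q, hq⟩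
        simp only at this
        rw [← this]
      · intro n hn
        have := congrFun (hc2 n hn).1 ⟨q, hq⟩
        simp only at this
        rw [← this]
    have h2 := (Filter.eventually_all_finset Q).mpr h1
    obtain ⟨N, hN⟩ := Filter.eventually_atTop.mp h2
    exact ⟨N, hN⟩
  obtain ⟨n, hn1, -, hn3, hn4, hn5, hn6⟩ := W_sum hQ hp hp3 x hx0 hdiv K t0 tr cc
    (fun n => by rw [hd_W hQ hp hp3 (hx0 n)]; exact (hc1 n).2.1) (fun n => (hc1 n).2.2.1)
    (fun γ n => congrFun (hc1 n).2.2.2 γ) m a haQ 0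
  obtain ⟨-, hy1, hy2, hy3⟩ := hc2 n hn1
  rw [hd_W hQ hp hp3 hn3, hy1] at hn4
  rw [hy2] at hn5
  have ht0 : t0 ≠ 0 := by
    rw [← (hc1 0).2.1]; exact t_ne_zero hpp (hx0 0)
  have htr : tr ≠ 0 := by
    rw [← (hc1 0).2.2.1]; exact lst_isW_ne_zero hpp (W_spec hQ hp hp3 (hx0 0)) (hx0 0)
  have hta0 : t p (a 0) = 1 := by
    have : 1 * t0 = t p (a 0) * t0 := by rw [one_mul]; exact hn4
    exact (mul_right_cancel₀ ht0 this).symm
  have htam : t p (a (Fin.last m)) = 1 := by
    have : 1 * tr = t p (a (Fin.last m)) * tr := by rw [one_mul]; exact hn5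
    exact (mul_right_cancel₀ htr this).symm
  -- translate to integers
  have hndvd : ∀ i, ¬ (p : ℤ) ∣ a i := by
    intro i h
    have h1 := Int.natAbs_dvd_natAbs.mpr h
    have h2 := Nat.le_of_dvd (Int.natAbs_pos.mpr (ha i)) h1
    have h3 := hAi i
    simp only [Int.natAbs_natCast] at h2
    omega
  have hsmall : ∀ z w : ℤ, (z : ZMod p) = (w : ZMod p) → (z - w).natAbs < p → z = w := by
    intro z w h1 h2
    have h3 : ((z - w : ℤ) : ZMod p) = 0 := by push_cast; rw [h1, sub_self]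
    rw [ZMod.intCast_zmod_eq_zero_iff_dvd] at h3
    by_contra hne
    have h4 := Int.natAbs_dvd_natAbs.mpr h3
    have h5 := Nat.le_of_dvd (Int.natAbs_pos.mpr (sub_ne_zero.mpr hne)) h4
    simp only [Int.natAbs_natCast] at h5
    omega
  have ha0 : a 0 = 1 := by
    rw [t_of_not_dvd hpp (hndvd 0)] at hta0
    apply hsmall
    · rw [hta0]; simp
    · have := hAi 0
      omega
  have ham : a (Fin.last m) = 1 := by
    rw [t_of_not_dvd hpp (hndvd _)] at htam
    apply hsmall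
    · rw [htam]; simp
    · have := hAi (Fin.last m)
      omega
  -- m = 0
  rcases Nat.eq_zero_or_pos m with hm0 | hmpos
  · subst hm0
    apply hs1
    rw [hs]
    simpa using ha0
  have hKm : K = m := by omega
  obtain ⟨m', rfl⟩ : ∃ m', m = m' + 1 := ⟨m - 1, by omega⟩
  -- counts
  set γ0 : ZMod p := t p (a 1) * t0 / tr with hγ0
  set I : Fin (m' + 1) → ℕ := fun i =>
    ind (t p (a i.succ) * t0 = γ0 * (t p (a i.castSucc) * tr)) with hI
  have hcount : ((∑ i, I i : ℕ) : ZMod K) = 0 := by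
    have h1 := hn6 γ0
    have h2 := congrFun hy3 γ0
    rw [h2] at h1
    have h3 : (((m' + 1 : ℕ) : ℕ) : ZMod K) = 0 := by rw [← hKm]; exact ZMod.natCast_self K
    push_cast at h1 h3 ⊢
    have h4 : (cc γ0 : ZMod K) = ((m' : ZMod K) + 1) * cc γ0 + cc γ0 +
      ∑ i, ((I i : ℕ) : ZMod K) := by
      rw [hI]
      calc cc γ0 = _ := h1
        _ = _ := by ring
    rw [h3, zero_mul, zero_add] at h4
    exact (add_eq_left.mp h4.symm)
  have hI0 : I 0 = 1 := by
    rw [hI]
    apply ind_true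
    simp only [Fin.succ_zero_eq_one, Fin.castSucc_zero]
    rw [hta0, hγ0]
    field_simp
  have hIle : ∀ i, I i ≤ 1 := fun i => ind_le _
  have hsumle : ∑ i, I i ≤ m' + 1 := by
    calc ∑ i, I i ≤ ∑ _i : Fin (m' + 1), 1 := Finset.sum_le_sum fun i _ => hIle i
      _ = m' + 1 := by simp
  have hsumge : 1 ≤ ∑ i, I i :=
    le_trans hI0.symm.le
      (Finset.single_le_sum (f := I) (fun _ _ => Nat.zero_le _) (Finset.mem_univ 0))
  have hsumeq : ∑ i, I i = m' + 1 := by
    rw [ZMod.natCast_eq_zero_iff, hKm] at hcount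
    exact le_antisymm hsumle (Nat.le_of_dvd (by omega) hcount)
  have hIall : ∀ i, I i = 1 := by
    by_contra hcon
    push Not at hcon
    obtain ⟨j, hj⟩ := hcon
    have : ∑ i, I i < ∑ _i : Fin (m' + 1), 1 := by
      apply Finset.sum_lt_sum (fun i _ => hIle i)
      exact ⟨j, Finset.mem_univ _, lt_of_le_of_ne (hIle j) hj⟩
    simp at this
    omega
  have hrel : ∀ i : Fin (m' + 1), t p (a i.succ) = t p (a i.castSucc) * t p (a 1) := by
    intro i
    have h1 : t p (a i.succ) * t0 = γ0 * (t p (a i.castSucc) * tr) := by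
      by_contra hne
      have := hIall i
      rw [hI] at this
      simp only at this
      rw [ind_false hne] at this
      omega
    have h2 : γ0 * (t p (a i.castSucc) * tr) = (t p (a i.castSucc) * t p (a 1)) * t0 := by
      rw [hγ0]; field_simp
    rw [h2] at h1
    exact mul_right_cancel₀ ht0 h1
  have hpow : ∀ j : ℕ, ∀ hj : j < m' + 1 + 1, t p (a ⟨j, hj⟩) = t p (a 1) ^ j := by
    intro j
    induction j with
    | zero => intro hj; simpa using hta0
    | succ j ih =>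
      intro hj
      have h1 := hrel ⟨j, by omega⟩
      have h2 := ih (by omega)
      have h3 : (Fin.succ ⟨j, by omega⟩ : Fin (m' + 1 + 1)) = ⟨j + 1, hj⟩ := rfl
      have h4 : (Fin.castSucc ⟨j, by omega⟩ : Fin (m' + 1 + 1)) = ⟨j, by omega⟩ := rfl
      rw [h3, h4, h2] at h1
      rw [h1, pow_succ]
  have hai : ∀ j : ℕ, ∀ hj : j < m' + 1 + 1, a ⟨j, hj⟩ = a 1 ^ j := by
    intro j hj
    apply hsmall
    · have := hpow j hj
      rw [t_of_not_dvd hpp (hndvd _), t_of_not_dvd hpp (hndvd _)] at this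
      rw [this]; push_cast; rfl
    · have h1 := hAi ⟨j, hj⟩
      have h2 : (a 1 ^ j).natAbs ≤ A ^ (m' + 1 + 1) := by
        rw [Int.natAbs_pow]
        calc (a 1).natAbs ^ j ≤ A ^ j := Nat.pow_le_pow_left (by have := hAi 1; omega) _
          _ ≤ A ^ (m' + 1 + 1) := Nat.pow_le_pow_right (by omega) (by omega)
      have h3 : (a ⟨j, hj⟩ - a 1 ^ j).natAbs ≤ (a ⟨j, hj⟩).natAbs + (a 1 ^ j).natAbs :=
        Int.natAbs_sub_le _ _
      omega
  have hlast : a 1 ^ (m' + 1) = 1 := by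
    rw [← hai (m' + 1) (by omega)]
    exact ham
  have hunit : a 1 = 1 ∨ a 1 = -1 := by
    have : IsUnit (a 1) := by
      apply IsUnit.of_mul_eq_one (a 1 ^ m')
      rw [← hlast, pow_succ]; ring
    exact Int.isUnit_iff.mp this
  rcases hunit with h1 | h1
  · apply hna
    rintro ⟨j, hj⟩
    rw [hai j hj, h1, one_pow]
  · have heven : Even (m' + 1) := by
      rw [h1] at hlast
      rcases Nat.even_or_odd (m' + 1) with h | h
      · exact h
      · rw [Odd.neg_one_pow h] at hlast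
        norm_num at hlast
    apply hs1
    have e : ∀ i : Fin (m' + 1 + 1), a i = (fun j : ℕ => (-1 : ℤ) ^ j) i := by
      rintro ⟨j, hj⟩
      rw [hai j hj, h1]
    rw [hs, Finset.sum_congr rfl (fun i _ => e i),
      Fin.sum_univ_eq_sum_range (fun j : ℕ => (-1 : ℤ) ^ j) (m' + 1 + 1), neg_one_geom_sum]
    rw [if_neg]
    intro h
    rw [Nat.even_add_one] at h
    exact h heven

end Pool.Agent.MP68293e
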