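import Mathlib
import Pool.Agent.MP68293e.NegMain

/-!
The case of coefficient sum zero and last coefficient different from one.
-/

namespace Pool.Agent.MP68293e

theorem log_color {b x y : ℕ} (hb : 2 ≤ b) (hx : 0 < x) (h1 : (8 * b - 1) * x ≤ 8 * y)
    (h2 : 8 * y ≤ (8 * b + 1) * x) : (Nat.log b (y ^ 2)) % 4 ≠ (Nat.log b (x ^ 2)) % 4 := by
  set L := Nat.log b (x ^ 2) with hL
  have hx2 : x ^ 2 ≠ 0 := by positivity
  have a1 : b ^ L ≤ x ^ 2 := Nat.pow_log_le_self b hx2
  have a2 : x ^ 2 < b ^ (L + 1) := Nat.lt_pow_succ_log_self (by omega) _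
  obtain ⟨c, rfl⟩ : ∃ c, b = c + 2 := ⟨b - 2, by omega⟩
  have e1 : 8 * (c + 2) - 1 = 8 * c + 15 := by omega
  rw [e1] at h1
  -- y^2 ≥ b x^2
  have a3 : (c + 2) * x ^ 2 ≤ y ^ 2 := by
    have : (8 * c + 15) ^ 2 * x ^ 2 ≤ 64 * y ^ 2 := by
      calc (8 * c + 15) ^ 2 * x ^ 2 = ((8 * c + 15) * x) ^ 2 := by ring
        _ ≤ (8 * y) ^ 2 := Nat.pow_le_pow_left h1 2
        _ = 64 * y ^ 2 := by ring
    nlinarith [Nat.zero_le (c * x ^ 2), Nat.zero_le (c ^ 2 * x ^ 2)]
  have a4 : y ^ 2 < (c + 2) ^ 3 * x ^ 2 := by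
    have : 64 * y ^ 2 ≤ (8 * c + 17) ^ 2 * x ^ 2 := by
      calc 64 * y ^ 2 = (8 * y) ^ 2 := by ring
        _ ≤ ((8 * (c + 2) + 1) * x) ^ 2 := Nat.pow_le_pow_left h2 2
        _ = (8 * c + 17) ^ 2 * x ^ 2 := by ring
    have hx3 : 0 < x ^ 2 := by positivity
    nlinarith [Nat.zero_le (c * x ^ 2), Nat.zero_le (c ^ 2 * x ^ 2), Nat.zero_le (c ^ 3 * x ^ 2)]
  have hb1 : 1 < c + 2 := by omega
  have hy2 : y ^ 2 ≠ 0 := by
    have : 0 < (c + 2) * x ^ 2 := by positivity
    omega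
  have a5 : L + 1 ≤ Nat.log (c + 2) (y ^ 2) := by
    apply Nat.le_log_of_pow_le hb1
    calc (c + 2) ^ (L + 1) = (c + 2) * (c + 2) ^ L := by ring
      _ ≤ (c + 2) * x ^ 2 := Nat.mul_le_mul_left _ a1
      _ ≤ y ^ 2 := a3
  have a6 : Nat.log (c + 2) (y ^ 2) < L + 4 := by
    apply Nat.log_lt_of_lt_pow hy2
    calc y ^ 2 < (c + 2) ^ 3 * x ^ 2 := a4
      _ ≤ (c + 2) ^ 3 * (c + 2) ^ (L + 1) := Nat.mul_le_mul_left _ a2.le
      _ = (c + 2) ^ (L + 4) := by ring
  omega

theorem neg_zero (m : ℕ) (a : Fin (m + 1) → ℤ) (ha : ∀ i, a i ≠ 0)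
    (hs0 : ∑ i, a i = 0) (hlast : a (Fin.last m) ≠ 1) :
    ∃ (C : Type) (_ : Finite C) (c : ℤ → C), Bad a c := by
  set b := (a (Fin.last m)).natAbs with hb
  have i1 : NeZero 4 := ⟨by norm_num⟩
  refine ⟨Fin 4, inferInstance, fun x => Fin.ofNat 4 (Nat.log b (x.natAbs ^ 2)), ?_⟩
  intro x hxpos hypos
  rintro ⟨col, hc1, hc2⟩
  -- the sequence tends to infinity
  have htend : ∀ B : ℤ, ∀ᶠ n in Filter.atTop, B < x n := by
    intro B
    by_contra hcon
    rw [Filter.not_eventually] at hcon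
    obtain ⟨φ1, hφ1, hφ1'⟩ := Filter.extraction_of_frequently_atTop hcon
    have hfin : ∀ n, x (φ1 n) ∈ Set.Icc (0 : ℤ) B := fun n =>
      ⟨(hxpos _).le, not_lt.mp (hφ1' n)⟩
    obtain ⟨⟨ρ, hρB⟩, hρ⟩ := Finite.exists_infinite_fiber
      (fun n : ℕ => (⟨x (φ1 n), hfin n⟩ : Set.Icc (0 : ℤ) B))
    rw [Set.infinite_coe_iff] at hρ
    obtain ⟨φ2, hφ2, hφ2'⟩ := Filter.extraction_of_frequently_atTop
      (Nat.frequently_atTop_iff_infinite.mpr hρ)
    have hval : ∀ n, x (φ1 (φ2 n)) = ρ := by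
      intro n
      have := hφ2' n
      simp only [Set.mem_singleton_iff, Subtype.mk.injEq] at this
      exact this
    have h1 := hypos (fun i => φ1 (φ2 i)) (fun i j hij => hφ1 (hφ2 hij))
    simp only [hval] at h1
    rw [← Finset.sum_mul, hs0, zero_mul] at h1
    exact lt_irrefl _ h1
  -- fix the first m indices
  set D : ℤ := ∑ i : Fin m, a i.castSucc * x i with hD
  obtain ⟨N, hN⟩ := Filter.eventually_atTop.mp (htend (8 * |D| + 1))
  set n1 := max N (m + 1) with hn1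
  have hx1 : 8 * |D| + 1 < x n1 := hN n1 (le_max_left _ _)
  let n : Fin (m + 1) → ℕ := Fin.snoc (α := fun _ => ℕ) (fun i : Fin m => (i : ℕ)) n1
  have hn_cast : ∀ i : Fin m, n i.castSucc = i := fun i => by simp [n]
  have hn_last : n (Fin.last m) = n1 := by simp [n]
  have hnmono : StrictMono n := by
    intro i j hij
    induction j using Fin.lastCases with
    | last =>
      induction i using Fin.lastCases with
      | last => exact absurd hij (lt_irrefl _)
      | cast i =>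
        rw [hn_cast, hn_last]
        have := i.2
        have := le_max_right N (m + 1)
        omega
    | cast j =>
      induction i using Fin.lastCases with
      | last => exact absurd hij (not_lt.mpr (Fin.le_last _))
      | cast i =>
        rw [hn_cast, hn_cast]
        exact hij
  have hy : ∑ i, a i * x (n i) = D + a (Fin.last m) * x n1 := by
    rw [Fin.sum_univ_castSucc, hn_last, hD]
    congr 1
    apply Finset.sum_congr rfl
    intro i _
    rw [hn_cast]
  have hypos' := hypos n hnmono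
  rw [hy] at hypos'
  have hDle := neg_abs_le D
  have hDle' := le_abs_self D
  have hDabs := abs_nonneg D
  have hapos : 0 < a (Fin.last m) := by
    by_contra hneg
    push Not at hneg
    have h1 : a (Fin.last m) ≤ -1 := by
      have := ha (Fin.last m)
      omega
    nlinarith
  have hb2 : 2 ≤ b := by omega
  have hab : a (Fin.last m) = (b : ℤ) := by omega
  have hcol := (hc1 n1).trans (hc2 n hnmono).symm
  rw [hy] at hcol
  simp only [Fin.ext_iff, Fin.val_ofNat] at hcol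
  apply log_color (b := b) (x := (x n1).natAbs) (y := (D + a (Fin.last m) * x n1).natAbs) hb2
    _ _ _ hcol.symm
  · have := hxpos n1; omega
  · have h1 : ((8 * b - 1 : ℕ) : ℤ) = 8 * b - 1 := by omega
    zify
    rw [h1, abs_of_pos (hxpos n1), abs_of_pos hypos', hab]
    nlinarith
  · zify
    rw [abs_of_pos (hxpos n1), abs_of_pos hypos', hab]
    nlinarith

end Pool.Agent.MP68293e
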