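import Mathlib
import Pool.Agent.Lib.InfRamsey

/-!
The positive results: monochromatic families `x_n`, `∑ aᵢ x_{n(i)}`.
-/

namespace Pool.Agent.MP68293e

open Hindman

theorem FS_coe (a : Stream' ℕ+) (m : ℕ) (h : m ∈ FS (a.map (fun z : ℕ+ => (z : ℕ)))) :
    ∃ z ∈ FS a, (z : ℕ) = m := by
  generalize hb : a.map (fun z : ℕ+ => (z : ℕ)) = b at h
  induction h generalizing a with
  | head' b => exact ⟨a.head, FS.head a, by rw [← hb]; rfl⟩
  | tail' b m hm ih =>
    obtain ⟨z, hz, hzm⟩ := ih a.tail (by rw [← hb]; rfl)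
    exact ⟨z, FS.tail a z hz, hzm⟩
  | cons' b m hm ih =>
    obtain ⟨z, hz, hzm⟩ := ih a.tail (by rw [← hb]; rfl)
    refine ⟨a.head + z, FS.cons a z hz, ?_⟩
    rw [PNat.add_coe, hzm, ← hb]
    rfl

/-- Hindman's theorem, for sums of `k` terms. -/
theorem pos_ones (k : ℕ) (hk : 0 < k) (r : ℕ) (c : ℕ+ → Fin r) :
    ∃ (x : ℕ → ℕ+) (j : Fin r), (∀ n, c (x n) = j) ∧
      ∀ n : Fin k → ℕ, StrictMono n → ∃ y : ℕ+, ∑ i, (x (n i) : ℤ) = (y : ℤ) ∧ c y = j := by
  obtain ⟨s, hs, a, ha⟩ := exists_FS_of_finite_cover (M := ℕ+)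
    (Set.range fun j : Fin r => c ⁻¹' {j}) (Set.finite_range _) (by
      intro z _
      rw [Set.mem_sUnion]
      exact ⟨c ⁻¹' {c z}, ⟨c z, rfl⟩, rfl⟩)
  obtain ⟨j, rfl⟩ := hs
  refine ⟨fun n => a.get n, j, ?_, ?_⟩
  · intro n
    exact ha (FS.singleton a n)
  · intro n hn
    have hne : (Finset.univ.image n).Nonempty := by
      have : Nonempty (Fin k) := ⟨⟨0, hk⟩⟩
      exact Finset.univ_nonempty.image n
    have h1 := FS.finsetSum (a.map (fun z : ℕ+ => (z : ℕ))) (Finset.univ.image n) hne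
    rw [Finset.sum_image (fun i _ j _ h => hn.injective h)] at h1
    obtain ⟨y, hy, hy2⟩ := FS_coe a _ h1
    refine ⟨y, ?_, ha hy⟩
    have : ((y : ℕ) : ℤ) = ∑ i, ((a.get (n i) : ℕ) : ℤ) := by
      rw [hy2]; push_cast; rfl
    exact this.symm

/-- With coefficient sum zero and last coefficient one: Ramsey's theorem. -/
theorem pos_zero (m : ℕ) (a : Fin (m + 1) → ℤ) (hs : ∑ i, a i = 0) (hl : a (Fin.last m) = 1)
    (r : ℕ) (c : ℕ+ → Fin r) :
    ∃ (x : ℕ → ℕ+) (j : Fin r), (∀ n, c (x n) = j) ∧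
      ∀ n : Fin (m + 1) → ℕ, StrictMono n →
        ∃ y : ℕ+, ∑ i, a i * (x (n i) : ℤ) = (y : ℤ) ∧ c y = j := by
  classical
  set B : ℤ := 1 + ∑ i, |a i| with hB
  have hB1 : 1 ≤ B := by
    have : 0 ≤ ∑ i, |a i| := Finset.sum_nonneg fun i _ => abs_nonneg _
    omega
  let w : ℕ → ℤ := fun n => B ^ n
  -- positivity
  have hpos : ∀ n : Fin (m + 1) → ℕ, StrictMono n → 0 < ∑ i, a i * w (n i) := by
    intro n hn
    rw [Fin.sum_univ_castSucc, hl, one_mul]
    rcases Nat.eq_zero_or_pos m with hm | hm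
    · subst hm
      simp only [Finset.univ_eq_empty, Finset.sum_empty, zero_add]
      exact pow_pos (by omega) _
    have h1 : 1 ≤ n (Fin.last m) := by
      have : n ⟨0, by omega⟩ < n (Fin.last m) := hn (by
        rw [Fin.lt_def]; exact hm)
      omega
    have h2 : |∑ i : Fin m, a i.castSucc * w (n i.castSucc)| ≤
        (∑ i : Fin m, |a i.castSucc|) * B ^ (n (Fin.last m) - 1) := by
      rw [Finset.sum_mul]
      refine le_trans (Finset.abs_sum_le_sum_abs _ _) (Finset.sum_le_sum ?_)
      intro i _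
      rw [abs_mul]
      apply mul_le_mul_of_nonneg_left _ (abs_nonneg _)
      have h3 : n i.castSucc < n (Fin.last m) := hn (Fin.castSucc_lt_last i)
      change |B ^ (n i.castSucc)| ≤ _
      rw [abs_of_pos (pow_pos (by omega) _)]
      exact pow_le_pow_right₀ hB1 (by omega)
    have h4 : ∑ i : Fin m, |a i.castSucc| + 1 < B := by
      rw [hB, Fin.sum_univ_castSucc, hl]
      simp only [abs_one]
      omega
    have h5 : w (n (Fin.last m)) = B * B ^ (n (Fin.last m) - 1) := by
      change B ^ (n (Fin.last m)) = _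
      rw [← pow_succ']
      congr 1
      omega
    have h6 : 0 < B ^ (n (Fin.last m) - 1) := pow_pos (by omega) _
    have h7 := neg_abs_le (∑ i : Fin m, a i.castSucc * w (n i.castSucc))
    rw [h5]
    nlinarith
  -- colour of a finite set
  let g : Finset ℕ → ℤ := fun t => ∑ i : Fin (m + 1),
    if h : t.card = m + 1 then a i * w (t.orderEmbOfFin h i) else 0
  have hg : ∀ n : Fin (m + 1) → ℕ, StrictMono n →
      g (Finset.univ.image n) = ∑ i, a i * w (n i) := by
    intro n hn
    have hcard : (Finset.univ.image n).card = m + 1 := by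
      rw [Finset.card_image_of_injective _ hn.injective]; simp
    change ∑ i : Fin (m + 1), (if h : (Finset.univ.image n).card = m + 1 then
      a i * w ((Finset.univ.image n).orderEmbOfFin h i) else 0) = _
    apply Finset.sum_congr rfl
    intro i _
    rw [dif_pos hcard]
    have h1 : n = (Finset.univ.image n).orderEmbOfFin hcard :=
      Finset.orderEmbOfFin_unique hcard (fun i => Finset.mem_image_of_mem _ (Finset.mem_univ i)) hn
    rw [← h1]
  let toP : ℤ → ℕ+ := fun z => z.toNat.toPNat'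
  have htoP : ∀ z : ℤ, 0 < z → ((toP z : ℕ+) : ℤ) = z := by
    intro z hz
    have h1 : 0 < z.toNat := by omega
    change (((z.toNat.toPNat' : ℕ+) : ℕ) : ℤ) = z
    rw [Nat.toPNat'_coe, if_pos h1]
    omega
  obtain ⟨φ, hφ, j, hj⟩ := Pool.Agent.Lib.InfRamsey.infinite_ramsey (m + 1)
    (fun t => c (toP (g t)))
  have hcol : ∀ n : Fin (m + 1) → ℕ, StrictMono n →
      c (toP (∑ i, a i * w (φ (n i)))) = j := by
    intro n hn
    have h1 := hj (Finset.univ.image n) (by
      rw [Finset.card_image_of_injective _ hn.injective]; simp)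
    rw [Finset.image_image] at h1
    rw [hg (φ ∘ n) (hφ.comp hn)] at h1
    exact h1
  -- the sequence
  set Z : ℤ := ∑ i : Fin m, a i.castSucc * w (φ i) with hZ
  have hxsum : ∀ q : ℕ, ∃ n : Fin (m + 1) → ℕ, StrictMono n ∧
      ∑ i, a i * w (φ (n i)) = Z + w (φ (q + m)) := by
    intro q
    let n : Fin (m + 1) → ℕ := Fin.snoc (α := fun _ => ℕ) (fun i : Fin m => (i : ℕ)) (q + m)
    have hn_cast : ∀ i : Fin m, n i.castSucc = i := fun i => by simp [n]
    have hn_last : n (Fin.last m) = q + m := by simp [n]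
    refine ⟨n, ?_, ?_⟩
    · intro i j hij
      induction j using Fin.lastCases with
      | last =>
        induction i using Fin.lastCases with
        | last => exact absurd hij (lt_irrefl _)
        | cast i =>
          rw [hn_cast, hn_last]
          have := i.2
          omega
      | cast j =>
        induction i using Fin.lastCases with
        | last => exact absurd hij (not_lt.mpr (Fin.le_last _))
        | cast i =>
          rw [hn_cast, hn_cast]
          exact hij
    · rw [Fin.sum_univ_castSucc, hn_last, hl, one_mul, hZ]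
      congr 1
      apply Finset.sum_congr rfl
      intro i _
      rw [hn_cast]
  have hxpos : ∀ q, 0 < Z + w (φ (q + m)) := by
    intro q
    obtain ⟨n, hn, hsum⟩ := hxsum q
    rw [← hsum]
    exact hpos (fun i => φ (n i)) (hφ.comp hn)
  refine ⟨fun q => toP (Z + w (φ (q + m))), j, ?_, ?_⟩
  · intro q
    obtain ⟨n, hn, hsum⟩ := hxsum q
    simp only
    rw [← hsum]
    exact hcol n hn
  · intro n hn
    have hn' : StrictMono fun i => n i + m := fun i j hij => Nat.add_lt_add_right (hn hij) m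
    have e : ∑ i, a i * ((toP (Z + w (φ (n i + m))) : ℕ+) : ℤ) =
        ∑ i, a i * w (φ (n i + m)) := by
      have e1 : ∀ i, a i * ((toP (Z + w (φ (n i + m))) : ℕ+) : ℤ) =
          a i * Z + a i * w (φ (n i + m)) := by
        intro i
        rw [htoP _ (hxpos _), mul_add]
      rw [Finset.sum_congr rfl (fun i _ => e1 i), Finset.sum_add_distrib, ← Finset.sum_mul, hs,
        zero_mul, zero_add]
    refine ⟨toP (∑ i, a i * w (φ (n i + m))), ?_, hcol _ hn'⟩
    rw [htoP _ (hpos (fun i => φ (n i + m)) (hφ.comp hn'))]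
    exact e

end Pool.Agent.MP68293e
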